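import Pool.Agent.L7h16.ST.Gen

/-! Project ST, part CNT (helper16). -/

set_option autoImplicit false

namespace Pool.Agent.L7h16.ST

open Pool.Agent.L7h23.ST Finset

/-- the words obtained from the word `w` of order `m` by `s` insertions -/
def Desc : ℕ → ℕ → List ℕ → Finset (List ℕ)
  | 0, _, w => {w}
  | s + 1, m, w => (range (2 * m + 1)).biUnion fun g => Desc s (m + 1) (ins g (m + 1) w)

theorem desc_succ (s m : ℕ) (w : List ℕ) : Desc (s + 1) m w =
    (range (2 * m + 1)).biUnion fun g => Desc s (m + 1) (ins g (m + 1) w) := rfl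

theorem desc_stirling (hG : S_GEN) (s : ℕ) : ∀ (m : ℕ) (w w' : List ℕ), IsStirling m w →
    w' ∈ Desc s m w → IsStirling (m + s) w' := by
  induction s with
  | zero => intro m w w' hw h; rw [Desc, mem_singleton] at h; subst h; exact hw
  | succ s ih =>
    intro m w w' hw h
    rw [desc_succ, mem_biUnion] at h
    obtain ⟨g, hg, h⟩ := h
    rw [mem_range] at hg
    have := ih (m + 1) _ w' ((hG.2.1 m _).2 ⟨w, g, hw, by omega, rfl⟩) h
    rwa [show m + (s + 1) = m + 1 + s by ring]

theorem desc_complete (hG : S_GEN) (s : ℕ) : ∀ (m : ℕ) (w' : List ℕ), IsStirling (m + s) w' →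
    ∃ w, IsStirling m w ∧ w' ∈ Desc s m w := by
  induction s with
  | zero => intro m w' hw; exact ⟨w', hw, by rw [Desc, mem_singleton]⟩
  | succ s ih =>
    intro m w' hw
    rw [show m + (s + 1) = m + 1 + s by ring] at hw
    obtain ⟨w1, hw1, hm⟩ := ih (m + 1) w' hw
    obtain ⟨w, g, hw2, hg, rfl⟩ := (hG.2.1 m w1).1 hw1
    refine ⟨w, hw2, ?_⟩
    rw [desc_succ, mem_biUnion]
    exact ⟨g, by rw [mem_range]; omega, hm⟩

theorem desc_disjoint (hG : S_GEN) (s : ℕ) : ∀ (m : ℕ) (w₁ w₂ w' : List ℕ), IsStirling m w₁ →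
    IsStirling m w₂ → w' ∈ Desc s m w₁ → w' ∈ Desc s m w₂ → w₁ = w₂ := by
  induction s with
  | zero =>
    intro m w₁ w₂ w' _ _ h1 h2
    rw [Desc, mem_singleton] at h1 h2
    rw [← h1, ← h2]
  | succ s ih =>
    intro m w₁ w₂ w' hw1 hw2 h1 h2
    rw [desc_succ, mem_biUnion] at h1 h2
    obtain ⟨g₁, hg1, h1⟩ := h1
    obtain ⟨g₂, hg2, h2⟩ := h2
    rw [mem_range] at hg1 hg2
    have e := ih (m + 1) _ _ w' ((hG.2.1 m _).2 ⟨w₁, g₁, hw1, by omega, rfl⟩)
      ((hG.2.1 m _).2 ⟨w₂, g₂, hw2, by omega, rfl⟩) h1 h2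
    exact (hG.2.2 m w₁ w₂ g₁ g₂ hw1 hw2 (by omega) (by omega) e).1

theorem desc_lucky (hI : S_INS) (hG : S_GEN) (s : ℕ) : ∀ (m : ℕ) (w w' : List ℕ),
    IsStirling m w → w' ∈ Desc s m w → lucky w' ≤ lucky w + s := by
  induction s with
  | zero => intro m w w' _ h; rw [Desc, mem_singleton] at h; subst h; simp
  | succ s ih =>
    intro m w w' hw h
    rw [desc_succ, mem_biUnion] at h
    obtain ⟨g, hg, h⟩ := h
    rw [mem_range] at hg
    have h1 := ih (m + 1) _ w' ((hG.2.1 m _).2 ⟨w, g, hw, by omega, rfl⟩) h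
    have h2 := hI m g w hw (by omega)
    split_ifs at h2 <;> omega

theorem Ht_length (m : ℕ) (w : List ℕ) : (Ht m w).length = 2 * m + 1 := by
  unfold Ht; simp

theorem Ht_getD (m g : ℕ) (w : List ℕ) (hg : g < 2 * m + 1) :
    (Ht m w).getD g 0 = h (w.take g) (m + 1) := by
  unfold Ht
  rw [List.getD_eq_getElem?_getD, List.getElem?_map, List.getElem?_range hg]
  rfl

theorem count_desc (hI : S_INS) (hG : S_GEN) (hH : S_HT) (s : ℕ) :
    ∀ (m d u : ℕ) (w : List ℕ), IsStirling m w → lucky w + d = m →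
      ((Desc s m w).filter fun w' => lucky w' + (u + d) = m + s).card = cnt s u (Ht m w) := by
  induction s with
  | zero =>
    intro m d u w hw hd
    rw [Desc, cnt, filter_singleton]
    by_cases hu : u = 0
    · subst hu; rw [if_pos (by omega), if_pos rfl, card_singleton]
    · rw [if_neg (by omega), if_neg hu, card_empty]
  | succ s ih =>
    intro m d u w hw hd
    rw [desc_succ, filter_biUnion, card_biUnion]
    · rw [cnt, Ht_length]
      apply sum_congr rfl
      intro g hg
      rw [mem_range] at hg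
      have hst : IsStirling (m + 1) (ins g (m + 1) w) :=
        (hG.2.1 m _).2 ⟨w, g, hw, by omega, rfl⟩
      have hl := hI m g w hw (by omega)
      rw [Ht_getD m g w hg, ← hH.2 m g w hw (by omega), show m + (s + 1) = m + 1 + s by ring]
      by_cases h0 : h (w.take g) (m + 1) = 0
      · rw [if_pos h0] at hl ⊢
        exact ih (m + 1) d u _ hst (by omega)
      · rw [if_neg h0] at hl ⊢
        by_cases hu : u = 0
        · rw [if_pos hu, card_eq_zero, filter_eq_empty_iff]
          intro w' hw' e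
          have := desc_lucky hI hG s (m + 1) _ w' hst hw'
          omega
        · rw [if_neg hu]
          have := ih (m + 1) (d + 1) (u - 1) _ hst (by omega)
          rw [show u - 1 + (d + 1) = u + d by omega] at this
          exact this
    · intro g₁ hg1 g₂ hg2 hne
      rw [mem_coe, mem_range] at hg1 hg2
      rw [Function.onFun, disjoint_left]
      intro w' h1 h2
      rw [mem_filter] at h1 h2
      have e := desc_disjoint hG s (m + 1) _ _ w'
        ((hG.2.1 m _).2 ⟨w, g₁, hw, by omega, rfl⟩)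
        ((hG.2.1 m _).2 ⟨w, g₂, hw, by omega, rfl⟩) h1.1 h2.1
      exact hne (hG.2.2 m w w g₁ g₂ hw hw (by omega) (by omega) e).2

theorem s_CNT (hI : S_INS) (hG : S_GEN) (hH : S_HT) : S_CNT := by
  intro n k hk
  have h0 : IsStirling 0 [] := (hG.1 []).2 rfl
  have hc := count_desc hI hG hH n 0 0 (n - k) [] h0 rfl
  rw [hH.1] at hc
  rw [← hc, aN, ← Set.ncard_coe_finset]
  congr 1
  ext w'
  simp only [Set.mem_setOf_eq, coe_filter]
  constructor
  · rintro ⟨h1, h2⟩
    refine ⟨?_, by omega⟩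
    obtain ⟨w, hw, hm⟩ := desc_complete hG n 0 w' (by simpa using h1)
    rw [(hG.1 w).1 hw] at hm
    exact hm
  · rintro ⟨h1, h2⟩
    exact ⟨by simpa using desc_stirling hG n 0 [] w' h0 h1, by omega⟩

end Pool.Agent.L7h16.ST
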