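import Pool.Agent.L7h23.ST.Stm

/-! Project ST, part GEN (helper16). -/

set_option autoImplicit false

namespace Pool.Agent.L7h16.ST

open Pool.Agent.L7h23.ST

/-- the letters of a Stirling permutation -/
theorem letters {m : ℕ} {w : List ℕ} (hw : IsStirling m w) : ∀ x ∈ w, 1 ≤ x ∧ x ≤ m := by
  obtain ⟨h1, h2, -⟩ := hw
  set w1 := w.filter (fun x => decide (1 ≤ x ∧ x ≤ m)) with hw1
  have hc : ∀ i ∈ Finset.Icc 1 m, w1.count i = 2 := by
    intro i hi
    rw [Finset.mem_Icc] at hi
    rw [hw1, List.count_filter (by simpa using hi)]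
    exact h2 i hi.1 hi.2
  have hs : ∑ i ∈ Finset.Icc 1 m, (w1 : Multiset ℕ).count i = Multiset.card (w1 : Multiset ℕ) := by
    apply Multiset.sum_count_eq_card
    intro a ha
    rw [Multiset.mem_coe, hw1, List.mem_filter] at ha
    rw [Finset.mem_Icc]
    simpa using ha.2
  have hs2 : ∑ i ∈ Finset.Icc 1 m, (w1 : Multiset ℕ).count i = 2 * m := by
    have : ∀ i ∈ Finset.Icc 1 m, (w1 : Multiset ℕ).count i = 2 := fun i hi => by
      rw [Multiset.coe_count]; exact hc i hi
    rw [Finset.sum_congr rfl this]
    simp [mul_comm]
  have hlen : w1.length = w.length := by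
    rw [hs2, Multiset.coe_card] at hs
    rw [← hs, h1]
  have := (List.length_filter_eq_length_iff (l := w)).1 hlen
  intro x hx
  simpa using this x hx

theorem count_top {m : ℕ} {w : List ℕ} (hw : IsStirling m w) : w.count (m + 1) = 0 := by
  rw [List.count_eq_zero]
  intro hm
  have := (letters hw _ hm).2
  omega

/-- the third condition in terms of sublists -/
theorem cond_iff (w : List ℕ) :
    (∀ (a b c : List ℕ) (i : ℕ), w = a ++ i :: (b ++ i :: c) → ∀ x ∈ b, i < x) ↔
      ∀ i x : ℕ, [i, x, i].Sublist w → i < x := by
  constructor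
  · intro hw i x hs
    obtain ⟨r1, r2, e1, hi, hs1⟩ := List.cons_sublist_iff.1 hs
    obtain ⟨r3, r4, e2, hx, hs2⟩ := List.cons_sublist_iff.1 hs1
    have hi2 : i ∈ r4 := by simpa using hs2
    obtain ⟨a, a', ha⟩ := List.append_of_mem hi
    obtain ⟨c', c, hc⟩ := List.append_of_mem hi2
    refine hw a (a' ++ r3 ++ c') c i ?_ x (by simp [hx])
    rw [e1, e2, ha, hc]
    simp
  · intro hw a b c i e x hx
    apply hw
    rw [e]
    refine List.Sublist.trans ?_ (List.sublist_append_right a _)
    refine List.Sublist.cons_cons _ ?_
    have h1 : [x].Sublist b := by simpa using hx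
    have h2 : [i].Sublist (i :: c) := by simp
    simpa using h1.append h2

theorem length_ins (g x : ℕ) (w : List ℕ) : (ins g x w).length = w.length + 2 := by
  unfold ins
  simp only [List.length_append, List.length_cons, List.length_take, List.length_drop]
  omega

theorem count_ins (g x i : ℕ) (w : List ℕ) :
    (ins g x w).count i = w.count i + if i = x then 2 else 0 := by
  have hw : w.count i = (w.take g).count i + (w.drop g).count i := by
    rw [← List.count_append, List.take_append_drop]
  unfold ins
  rw [hw, List.count_append, List.count_cons, List.count_cons]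
  by_cases hi : i = x
  · subst hi; simp; omega
  · have hi' : ¬ x = i := fun h => hi h.symm
    simp [hi, hi']

theorem filter_ins {g x : ℕ} {w : List ℕ} (hx : ∀ y ∈ w, y ≠ x) :
    (ins g x w).filter (fun y => decide (y ≠ x)) = w := by
  unfold ins
  rw [List.filter_append, List.filter_cons_of_neg (by simp), List.filter_cons_of_neg (by simp),
    ← List.filter_append, List.take_append_drop, List.filter_eq_self]
  intro y hy
  simpa using hx y hy

theorem sublist_ins (g x : ℕ) (w : List ℕ) : w.Sublist (ins g x w) := by
  have : (w.take g ++ w.drop g).Sublist (ins g x w) := by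
    unfold ins
    exact (List.Sublist.refl _).append (((List.Sublist.refl _).cons _).cons _)
  rwa [List.take_append_drop] at this

theorem gen_forward {m : ℕ} {w' : List ℕ} (hw : IsStirling (m + 1) w') :
    ∃ (w : List ℕ) (g : ℕ), IsStirling m w ∧ g ≤ 2 * m ∧ w' = ins g (m + 1) w := by
  have hlet := letters hw
  obtain ⟨h1, h2, h3⟩ := hw
  have hc := h2 (m + 1) (by omega) le_rfl
  have hm : m + 1 ∈ w' := List.count_pos_iff.1 (by omega)
  obtain ⟨a, r, e⟩ := List.append_of_mem hm
  -- choose the decomposition with `m + 1 ∉ a`
  obtain ⟨a, r, e, ha⟩ : ∃ a r, w' = a ++ (m + 1) :: r ∧ m + 1 ∉ a := by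
    obtain ⟨a, r, ha, e⟩ := List.mem_iff_append.1 hm |> fun _ => List.eq_append_cons_of_mem hm
    exact ⟨a, r, ha, e⟩
  have hr : r.count (m + 1) = 1 := by
    rw [e, List.count_append, List.count_cons_self, List.count_eq_zero.2 ha] at hc
    omega
  have hmr : m + 1 ∈ r := List.count_pos_iff.1 (by omega)
  obtain ⟨b, c, er⟩ := List.append_of_mem hmr
  have hb : b = [] := by
    by_contra hb
    obtain ⟨x, hx⟩ := List.exists_mem_of_ne_nil b hb
    have := h3 a b c (m + 1) (by rw [e, er]) x hx
    have := (hlet x (by rw [e, er]; simp [hx])).2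
    omega
  subst hb
  have e' : w' = a ++ (m + 1) :: (m + 1) :: c := by rw [e, er]; simp
  have hlen : a.length + c.length = 2 * m := by
    rw [e'] at h1
    simp only [List.length_append, List.length_cons] at h1
    omega
  have hins : w' = ins a.length (m + 1) (a ++ c) := by
    rw [e']; unfold ins; simp
  refine ⟨a ++ c, a.length, ⟨by simpa using hlen, ?_, ?_⟩, by omega, hins⟩
  · intro i hi1 hi2
    have := h2 i hi1 (by omega)
    rw [hins, count_ins, if_neg (by omega)] at this
    omega
  · rw [cond_iff] at h3 ⊢
    intro i x hs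
    apply h3
    rw [hins]
    exact hs.trans (sublist_ins _ _ _)

theorem gen_backward {m g : ℕ} {w : List ℕ} (hw : IsStirling m w) :
    IsStirling (m + 1) (ins g (m + 1) w) := by
  have hlet := letters hw
  have htop := count_top hw
  have hne : ∀ y ∈ w, y ≠ m + 1 := fun y hy => by have := (hlet y hy).2; omega
  obtain ⟨h1, h2, h3⟩ := hw
  refine ⟨by rw [length_ins, h1]; ring, ?_, ?_⟩
  · intro i hi1 hi2
    rw [count_ins]
    by_cases hi : i = m + 1
    · rw [if_pos hi, hi, htop]
    · rw [if_neg hi, h2 i hi1 (by omega)]
  · rw [cond_iff] at h3 ⊢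
    intro i x hs
    by_cases hi : i = m + 1
    · exfalso
      subst hi
      have hta : m + 1 ∉ w.take g := fun hm => hne _ (List.mem_of_mem_take hm) rfl
      have htd : m + 1 ∉ w.drop g := fun hm => hne _ (List.mem_of_mem_drop hm) rfl
      unfold ins at hs
      obtain ⟨l1, l2, e, hl1, hl2⟩ := List.sublist_append_iff.1 hs
      have hl1' : l1 = [] := by
        cases l1 with
        | nil => rfl
        | cons y l1 =>
          simp only [List.cons_append, List.cons.injEq] at e
          exact absurd (hl1.subset (by rw [← e.1]; simp)) hta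
      subst hl1'
      simp only [List.nil_append] at e
      subst e
      have h4 : [x, m + 1].Sublist ((m + 1) :: w.drop g) := by
        cases hl2 with
        | cons _ h5 => 
          cases h5 with
          | cons _ h6 => exact absurd (h6.subset (by simp)) htd
          | cons_cons _ h6 => exact absurd (h6.subset (by simp)) htd
        | cons_cons _ h5 => exact h5
      cases h4 with
      | cons _ h6 => exact absurd (h6.subset (by simp)) htd
      | cons_cons _ h6 => exact absurd (h6.subset (by simp)) htd
    · by_cases hx : x = m + 1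
      · have hi2 : i ∈ ins g (m + 1) w := hs.subset (by simp)
        have hi3 : i ∈ w := by
          unfold ins at hi2
          simp only [List.mem_append, List.mem_cons] at hi2
          rcases hi2 with h | h | h | h
          · exact List.mem_of_mem_take h
          · exact absurd h hi
          · exact absurd h hi
          · exact List.mem_of_mem_drop h
        have := (hlet i hi3).2
        omega
      · have hf := hs.filter (fun y => decide (y ≠ m + 1))
        rw [filter_ins hne] at hf
        apply h3
        convert hf using 1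
        simp [hi, hx]

theorem s_GEN : S_GEN := by
  refine ⟨?_, ?_, ?_⟩
  · intro w
    constructor
    · intro hw
      exact List.length_eq_zero_iff.1 (by simpa using hw.1)
    · rintro rfl
      refine ⟨rfl, fun i h1 h2 => by omega, ?_⟩
      intro a b c i e
      simp at e
  · intro m w'
    constructor
    · exact gen_forward
    · rintro ⟨w, g, hw, -, rfl⟩
      exact gen_backward hw
  · intro m w₁ w₂ g₁ g₂ hw1 hw2 hg1 hg2 e
    have hne1 : ∀ y ∈ w₁, y ≠ m + 1 := fun y hy => by have := (letters hw1 y hy).2; omega
    have hne2 : ∀ y ∈ w₂, y ≠ m + 1 := fun y hy => by have := (letters hw2 y hy).2; omega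
    have hw : w₁ = w₂ := by rw [← filter_ins (g := g₁) hne1, e, filter_ins hne2]
    refine ⟨hw, ?_⟩
    have hidx : ∀ (w : List ℕ) (g : ℕ), w.length = 2 * m → g ≤ 2 * m → (∀ y ∈ w, y ≠ m + 1) →
        (ins g (m + 1) w).idxOf (m + 1) = g := by
      intro w g hl hg hne
      unfold ins
      have hta : m + 1 ∉ w.take g := fun hm => hne _ (List.mem_of_mem_take hm) rfl
      rw [List.idxOf_append_of_notMem hta, List.idxOf_cons_self, List.length_take]
      omega
    rw [← hidx w₁ g₁ hw1.1 hg1 hne1, e, hidx w₂ g₂ hw2.1 hg2 hne2]

end Pool.Agent.L7h16.ST
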