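import Pool.Agent.L7h16.ST.Gen

/-! Project ST, part INS (helper16). -/

set_option autoImplicit false

namespace Pool.Agent.L7h16.ST

open Pool.Agent.L7h23.ST

theorem h_congr {u u' : List ℕ} {m : ℕ} (hc : ∀ l ≤ m, u.count l = u'.count l) :
    ∀ i ≤ m + 1, h u i = h u' i := by
  intro i
  induction i with
  | zero => intro _; rfl
  | succ i ih =>
    intro hi
    show h u i + u.count i - 1 = h u' i + u'.count i - 1
    rw [ih (by omega), hc i (by omega)]

theorem lucky_append (hP : S_PARK) {m : ℕ} (v : List ℕ) : ∀ (u u' : List ℕ),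
    (∀ x ∈ u, 1 ≤ x) → (∀ x ∈ u', 1 ≤ x) → (∀ x ∈ v, 1 ≤ x ∧ x ≤ m) →
    (∀ l ≤ m, u.count l = u'.count l) →
    lucky (u ++ v) + lucky u' = lucky (u' ++ v) + lucky u := by
  induction v with
  | nil => intro u u' _ _ _ _; simp [add_comm]
  | cons p v ih =>
    intro u u' hu hu' hv hc
    have hp := hv p (by simp)
    have e1 : u ++ p :: v = (u ++ [p]) ++ v := by simp
    have e2 : u' ++ p :: v = (u' ++ [p]) ++ v := by simp
    have h1 := ih (u ++ [p]) (u' ++ [p])
      (by intro x hx; rcases List.mem_append.1 hx with h | h
          · exact hu x h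
          · rw [List.mem_singleton] at h; omega)
      (by intro x hx; rcases List.mem_append.1 hx with h | h
          · exact hu' x h
          · rw [List.mem_singleton] at h; omega)
      (fun x hx => hv x (by simp [hx]))
      (by intro l hl; rw [List.count_append, List.count_append, hc l hl])
    rw [e1, e2]
    have h2 := hP u p hu hp.1
    have h3 := hP u' p hu' hp.1
    rw [h_congr hc p (by omega), hc p hp.2] at h2
    omega

theorem s_INS (hP : S_PARK) : S_INS := by
  intro m g w hw hg
  have hlet := letters hw
  have htop := count_top hw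
  have hta : ∀ x ∈ w.take g, 1 ≤ x ∧ x ≤ m := fun x hx => hlet x (List.mem_of_mem_take hx)
  have htd : ∀ x ∈ w.drop g, 1 ≤ x ∧ x ≤ m := fun x hx => hlet x (List.mem_of_mem_drop hx)
  have hcz : (w.take g).count (m + 1) = 0 := by
    rw [List.count_eq_zero]; intro hm; have := (hta _ hm).2; omega
  have hpos : ∀ x ∈ w.take g ++ [m + 1], 1 ≤ x := by
    intro x hx; rcases List.mem_append.1 hx with h | h
    · exact (hta x h).1
    · rw [List.mem_singleton] at h; omega
  have hpos2 : ∀ x ∈ w.take g ++ [m + 1] ++ [m + 1], 1 ≤ x := by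
    intro x hx; rcases List.mem_append.1 hx with h | h
    · exact hpos x h
    · rw [List.mem_singleton] at h; omega
  have h1 := lucky_append hP (m := m) (w.drop g) (w.take g ++ [m + 1] ++ [m + 1]) (w.take g) hpos2
    (fun x hx => (hta x hx).1) htd (by
      intro l hl
      have : ¬ m + 1 = l := by omega
      rw [List.count_append, List.count_append, List.count_singleton]
      simp [this])
  have h2 := hP (w.take g) (m + 1) (fun x hx => (hta x hx).1) (by omega)
  have h3 := hP (w.take g ++ [m + 1]) (m + 1) hpos (by omega)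
  rw [List.count_append, List.count_singleton_self, if_neg (by omega)] at h3
  rw [hcz, add_zero] at h2
  rw [List.take_append_drop] at h1
  have e : ins g (m + 1) w = w.take g ++ [m + 1] ++ [m + 1] ++ w.drop g := by
    unfold ins; simp
  rw [e]
  omega

end Pool.Agent.L7h16.ST
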