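import Pool.Agent.L7h23.ST.Stm

/-! Project ST, part PARK (helper16). -/

set_option autoImplicit false

namespace Pool.Agent.L7h16.ST

open Pool.Agent.L7h23.ST

/-- the set of the taken spots after the cars `w` -/
noncomputable def occF : Finset ℕ → List ℕ → Finset ℕ
  | o, [] => o
  | o, p :: w => occF (insert (spot o p) o) w

theorem occF_append (u : List ℕ) (p : ℕ) (o : Finset ℕ) :
    occF o (u ++ [p]) = insert (spot (occF o u) p) (occF o u) := by
  induction u generalizing o with
  | nil => simp [occF]
  | cons a u ih => simp only [List.cons_append, occF]; exact ih _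

theorem luckyFrom_append (u : List ℕ) (p : ℕ) (o : Finset ℕ) :
    luckyFrom o (u ++ [p]) = luckyFrom o u + if spot (occF o u) p = p then 1 else 0 := by
  induction u generalizing o with
  | nil =>
    show (if spot o p = p then 1 else 0) + 0 = 0 + if spot o p = p then 1 else 0
    omega
  | cons a u ih =>
    show (if spot o a = a then 1 else 0) + luckyFrom (insert (spot o a) o) (u ++ [p]) =
      ((if spot o a = a then 1 else 0) + luckyFrom (insert (spot o a) o) u) +
        if spot (occF (insert (spot o a) o) u) p = p then 1 else 0
    rw [ih, add_assoc]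

theorem spot_nonempty (o : Finset ℕ) (p : ℕ) : {s | p ≤ s ∧ s ∉ o}.Nonempty := by
  obtain ⟨s, hs⟩ := Finset.exists_notMem (o ∪ Finset.range p)
  simp only [Finset.mem_union, Finset.mem_range, not_or, not_lt] at hs
  exact ⟨s, hs.2, hs.1⟩

theorem le_spot (o : Finset ℕ) (p : ℕ) : p ≤ spot o p := (Nat.sInf_mem (spot_nonempty o p)).1

theorem spot_notMem (o : Finset ℕ) (p : ℕ) : spot o p ∉ o := (Nat.sInf_mem (spot_nonempty o p)).2

theorem mem_of_lt_spot (o : Finset ℕ) (p j : ℕ) (h1 : p ≤ j) (h2 : j < spot o p) : j ∈ o := by
  by_contra hj
  exact absurd (Nat.sInf_le (s := {s | p ≤ s ∧ s ∉ o}) ⟨h1, hj⟩) (by simpa [spot] using h2)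

theorem spot_eq_iff (o : Finset ℕ) (p : ℕ) : spot o p = p ↔ p ∉ o := by
  constructor
  · intro hh; have := spot_notMem o p; rwa [hh] at this
  · intro hh
    refine le_antisymm ?_ (le_spot o p)
    by_contra hlt
    exact hh (mem_of_lt_spot o p p le_rfl (not_le.mp hlt))

theorem key (u : List ℕ) : (∀ x ∈ u, 1 ≤ x) →
    ∀ i, 1 ≤ i → (i ∈ occF ∅ u ↔ 1 ≤ h u i + u.count i) := by
  induction u using List.reverseRecOn with
  | nil =>
    intro _ i _
    have h0 : ∀ i, h [] i = 0 := by
      intro i; induction i with
      | zero => rfl
      | succ i ih => simp [h, ih]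
    simp [occF, h0]
  | append_singleton u p ih =>
    intro hu
    have hu' : ∀ x ∈ u, 1 ≤ x := fun x hx => hu x (by simp [hx])
    have hp : 1 ≤ p := hu p (by simp)
    have ih := ih hu'
    set s := spot (occF ∅ u) p with hs
    have hps : p ≤ s := le_spot _ _
    have hsn : s ∉ occF ∅ u := spot_notMem _ _
    have hmem : ∀ j, p ≤ j → j < s → j ∈ occF ∅ u := fun j h1 h2 => mem_of_lt_spot _ _ _ h1 h2
    have hcount : ∀ i, (u ++ [p]).count i = u.count i + if i = p then 1 else 0 := by
      intro i
      rw [List.count_append, List.count_singleton]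
      congr 1
      by_cases hi : i = p
      · subst hi; simp
      · have : ¬ p = i := fun h => hi h.symm
        simp [hi, this]
    have hh : ∀ i, h (u ++ [p]) i = h u i + if p < i ∧ i ≤ s then 1 else 0 := by
      intro i
      induction i with
      | zero => simp [h]
      | succ i ihi =>
        have e1 : h (u ++ [p]) (i + 1) = h (u ++ [p]) i + (u ++ [p]).count i - 1 := rfl
        have e2 : h u (i + 1) = h u i + u.count i - 1 := rfl
        rw [e1, e2, ihi, hcount]
        rcases lt_trichotomy i p with hip | hip | hip
        · have a1 : ¬ (p < i ∧ i ≤ s) := by omega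
          have a2 : ¬ i = p := by omega
          have a3 : ¬ (p < i + 1 ∧ i + 1 ≤ s) := by omega
          rw [if_neg a1, if_neg a2, if_neg a3]; omega
        · subst hip
          have a1 : ¬ (i < i ∧ i ≤ s) := by omega
          rw [if_neg a1, if_pos rfl]
          by_cases his : i < s
          · have b := (ih i hp).1 (hmem i le_rfl his)
            rw [if_pos ⟨by omega, by omega⟩]; omega
          · have his' : i = s := by omega
            have b : ¬ 1 ≤ h u i + u.count i := fun hb => hsn (his' ▸ (ih i hp).2 hb)
            rw [if_neg (by omega)]; omega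
        · have a2 : ¬ i = p := by omega
          rw [if_neg a2]
          by_cases his : i < s
          · have b := (ih i (by omega)).1 (hmem i hip.le his)
            rw [if_pos ⟨hip, by omega⟩, if_pos ⟨by omega, by omega⟩]; omega
          · by_cases his' : i = s
            · have b : ¬ 1 ≤ h u i + u.count i := fun hb => hsn (his' ▸ (ih i (by omega)).2 hb)
              rw [if_pos ⟨hip, by omega⟩, if_neg (by omega)]; omega
            · rw [if_neg (by omega), if_neg (by omega)]; omega
    intro i hi
    rw [occF_append, Finset.mem_insert, ← hs, hh, hcount]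
    have ihi := ih i hi
    constructor
    · rintro (h1 | h1)
      · by_cases hc : i = p
        · rw [if_pos hc]; omega
        · rw [if_pos (show p < i ∧ i ≤ s by omega)]; omega
      · have := ihi.1 h1; omega
    · intro h1
      by_cases his : i = s
      · exact Or.inl his
      · right
        by_cases hc : p ≤ i ∧ i < s
        · exact hmem i hc.1 hc.2
        · apply ihi.2
          rw [if_neg (by omega), if_neg (by omega)] at h1
          omega

theorem s_PARK : S_PARK := by
  intro u p hu hp
  unfold lucky
  rw [luckyFrom_append]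
  congr 1
  have hk := key u hu p hp
  by_cases hc : h u p + u.count p = 0
  · rw [if_pos hc, if_pos]
    rw [spot_eq_iff]
    intro hm
    have := hk.1 hm
    omega
  · rw [if_neg hc, if_neg]
    rw [spot_eq_iff, not_not]
    exact hk.2 (by omega)

end Pool.Agent.L7h16.ST
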